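import Pool.Agent.Helper61.EP.StC

set_option autoImplicit false

/-!
# Project EP, module CEX: the exponents
-/

namespace Pool.Agent.Helper13.EP

open Pool.Agent.Helper61.EP Pool.Agent.Helper20.RG Pool.Agent.Helper20.RL

theorem hCEX : StCEX := by
  intro p d₀ hp1 hp2 hp hd₀
  have hq : 0 < (p ^ 2 + p - 3) / (4 * p) := div_pos (by linarith) (by linarith)
  have hr : 0 < (p - 1) / 4 := by linarith
  obtain ⟨d, hd, h1, h2, h3⟩ : ∃ d : ℝ, 0 < d ∧ d ≤ d₀ ∧ d ≤ (p ^ 2 + p - 3) / (4 * p) ∧ d ≤ (p - 1) / 4 :=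
    ⟨min d₀ (min ((p ^ 2 + p - 3) / (4 * p)) ((p - 1) / 4)), lt_min hd₀ (lt_min hq hr), min_le_left _ _,
      (min_le_right _ _).trans (min_le_left _ _), (min_le_right _ _).trans (min_le_right _ _)⟩
  rw [le_div_iff₀ (by linarith : (0 : ℝ) < 4 * p)] at h2
  refine ⟨p - d, p - 1 - d, by linarith, by linarith, by linarith, hp2, by linarith, by linarith, ?_⟩
  have key : 1 - d / 2 - p / 2 < 3 * (p - 1 - d) / (2 * p) := by
    rw [lt_div_iff₀ (by linarith : (0 : ℝ) < 2 * p)]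
    nlinarith [mul_pos hd (by linarith : (0 : ℝ) < p - 1)]
  linarith

end Pool.Agent.Helper13.EP
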